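import Mathlib

/-!
Sixteen lines in general position in the real projective plane without a quadrangular face
(80 triangles, 11 pentagons, 25 hexagons, 5 heptagons).  The cells are enumerated by a decision tree,
checked by the kernel.
-/

set_option autoImplicit false

namespace Pool.Agent.H216R2.QuadFree

abbrev V3 := Int × Int × Int

def dotI (u y : V3) : Int := u.1 * y.1 + u.2.1 * y.2.1 + u.2.2 * y.2.2

def detI (u v w : V3) : Int :=
  u.1 * (v.2.1 * w.2.2 - v.2.2 * w.2.1) - u.2.1 * (v.1 * w.2.2 - v.2.2 * w.1)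
    + u.2.2 * (v.1 * w.2.1 - v.2.1 * w.1)

def negI (u : V3) : V3 := (-u.1, -u.2.1, -u.2.2)

/-- `w` lies in the closed cone spanned by the independent vectors `a, b, c` -/
def inCone (a b c w : V3) : Bool :=
  let D := detI a b c
  decide (D ≠ 0) && decide (0 ≤ D * detI w b c) && decide (0 ≤ D * detI a w c)
    && decide (0 ≤ D * detI a b w)

/-- `y` violates exactly the `i`-th inequality -/
def wallAux : List V3 → Nat → V3 → Bool
  | [], _, _ => false
  | u :: C, 0, y => decide (dotI u y < 0) && C.all (fun w => decide (0 < dotI w y))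
  | u :: C, (i + 1), y => decide (0 < dotI u y) && wallAux C i y

def off : Int := 64

def dec (k : Nat) : V3 :=
  (((k / 16384 % 128 : Nat) : Int) - off, ((k / 128 % 128 : Nat) : Int) - off,
    ((k % 128 : Nat) : Int) - off)

def idx (k : Nat) : Nat := k / 2097152

inductive Tree
  | B (p n : Tree)
  | P (k : Nat) (t : Tree)
  | N (k : Nat) (t : Tree)
  | T (k : Nat)
  | M (l : List Nat)

def getV (C : List V3) (i : Nat) : V3 := C.getD i (0, 0, 0)

def leafT (k : Nat) (C : List V3) : Bool :=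
  let a := getV C (k / 256)
  let b := getV C (k / 16 % 16)
  let c := getV C (k % 16)
  decide (k / 256 < C.length) && decide (k / 16 % 16 < C.length) && decide (k % 16 < C.length)
    && C.all (fun w => inCone a b c w)

def leafM (l : List Nat) (C : List V3) : Bool :=
  decide (l.length = 5) && decide ((l.map idx).Nodup) && l.all (fun k => wallAux C (idx k) (dec k))

def check : Tree → List V3 → List V3 → Bool
  | .B p n, w :: rest, C => check p rest (w :: C) && check n rest (negI w :: C)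
  | .P k t, w :: rest, C =>
      decide (k / 256 < C.length) && decide (k / 16 % 16 < C.length) && decide (k % 16 < C.length)
      && inCone (getV C (k / 256)) (getV C (k / 16 % 16)) (getV C (k % 16)) w
      && check t rest (w :: C)
  | .N k t, w :: rest, C =>
      decide (k / 256 < C.length) && decide (k / 16 % 16 < C.length) && decide (k % 16 < C.length)
      && inCone (getV C (k / 256)) (getV C (k / 16 % 16)) (getV C (k % 16)) (negI w)
      && check t rest (negI w :: C)
  | .T k, [], C => leafT k C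
  | .M l, [], C => leafM l C
  | _, _, _ => false

def L : List V3 := [(1,1,4),(4,1,-2),(0,3,-1),(1,4,4),(3,2,1),(4,-2,3),(1,2,1),(3,3,-4),
  (-2,3,3),(2,-4,1),(2,-3,3),(4,1,3),(1,4,1),(1,0,2),(-4,4,1),(0,2,-3)]

open Pool.Agent.H216R2.QuadFree.Tree in
def tree : Tree :=
  (B (B (B (P 18 (B (B (N 69 (P 21 (P 39 (P 19 (P 20 (P 18 (P 20 (P 70 (P 141 (P 71 (T
  2799))))))))))) (N 20 (B (B (P 20 (B (P 18 (P 20 (P 23 (B (P 71 (M
  [22061377,11542977,30482880,32531011,3172555])) (P 20 (T 351)))))) (P 38 (P 25 (P 18 (B (P 76 (T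
  349)) (P 26 (M [15720769,3154369,24044867,28271937,32499787])))))))) (P 36 (N 25 (P 106 (P 19 (P
  18 (N 53 (P 26 (T 1983))))))))) (P 19 (P 38 (P 39 (P 18 (P 26 (P 23 (P 22 (P 205 (T
  2270)))))))))))) (N 20 (N 19 (P 36 (B (P 22 (N 21 (P 40 (P 25 (P 18 (N 155 (P 28 (T 1981))))))))
  (P 104 (N 25 (B (P 19 (P 18 (N 53 (P 28 (M [24109377,9364163,28238786,32416709,15656259]))))) (P
  35 (P 28 (N 37 (P 28 (T 1247)))))))))))))) (B (B (N 35 (N 20 (B (P 53 (P 20 (B (P 18 (P 20 (P 23
  (P 59 (P 71 (T 1421)))))) (P 38 (P 71 (P 18 (B (B (M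
  [1073471,28320193,24109887,3106113,11956019]) (T 139)) (P 26 (T 445))))))))) (P 19 (P 71 (B (P
  18 (P 26 (P 23 (P 22 (B (M [1387445,28699957,30830131,18247475,12121389]) (T 94)))))) (P 38 (B
  (P 18 (P 22 (B (T 88) (M [30433471,17850687,24142269,7514030,11873205])))) (P 22 (P 18 (N 36 (T
  958)))))))))))) (N 18 (N 36 (B (B (B (N 21 (B (B (P 18 (B (B (T 27) (M
  [24142143,17850813,3121727,7332412,9413181])) (B (M [1024575,9396800,3138367,15655874,24077633])
  (T 20)))) (P 21 (P 18 (N 36 (T 840))))) (B (P 20 (B (N 19 (T 308)) (B (T 71) (M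
  [15688000,1008192,3121725,9413183,7267004])))) (P 19 (B (N 19 (M
  [7316029,9429564,17818044,3072700,13574841])) (N 18 (T 310))))))) (N 18 (N 19 (B (P 20 (N 20 (N
  86 (T 871)))) (P 25 (B (N 19 (T 360)) (N 18 (M
  [26173630,13558460,15655230,17768890,3089081])))))))) (B (N 23 (B (P 19 (P 18 (N 53 (P 54 (T
  1149))))) (P 35 (P 28 (N 37 (B (M [1007936,15688256,28238531,32432450,9364418]) (T 103))))))) (N
  20 (N 18 (B (P 28 (N 20 (B (T 111) (M [13590848,7266622,26059073,877122,15557564])))) (P 25 (N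
  21 (N 18 (T 892))))))))) (P 20 (B (N 21 (B (B (P 18 (P 22 (N 122 (T 907)))) (P 22 (P 18 (N 36 (M
  [30433470,7365053,9429436,17818172,13656630]))))) (N 20 (P 19 (P 70 (N 19 (T 1128))))))) (N 19
  (B (N 18 (P 22 (P 18 (N 21 (T 1134))))) (N 20 (P 25 (B (N 19 (M
  [26206269,13623740,3088826,17769145,30433592])) (N 18 (T 396))))))))))))) (N 18 (N 52 (B (N 22
  (N 22 (N 19 (N 20 (N 18 (N 20 (N 70 (N 28 (N 30 (T 2543)))))))))) (B (B (N 21 (N 18 (N 19 (N 56
  (P 69 (N 106 (N 18 (T 1932)))))))) (N 53 (N 20 (N 18 (B (P 28 (N 20 (N 190 (T 975)))) (B (N 21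
  (N 18 (M [15687870,5185471,17751996,26140990,32366785]))) (N 22 (N 30 (T 655))))))))) (B (N 37
  (N 19 (N 121 (N 20 (B (B (N 19 (T 462)) (N 18 (M [3137597,17785022,5185339,15654844,26157498])))
  (N 28 (N 22 (T 638)))))))) (N 18 (N 20 (N 18 (N 20 (B (N 21 (N 18 (T 632))) (N 28 (N 30 (M
  [17768383,19865277,32448319,5169084,15671099]))))))))))))))) (B (B (P 18 (B (B (B (P 23 (P 18 (P
  20 (P 18 (P 20 (P 92 (P 28 (P 71 (T 2207))))))))) (P 55 (P 53 (P 20 (P 18 (B (B (P 22 (B (M
  [17899841,32579777,1138878,20013504,5398463]) (T 58))) (P 21 (P 18 (T 575)))) (B (P 18 (B (T 35)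
  (M [7430334,28401725,5365694,1351612,22340151]))) (P 20 (B (M
  [1171390,7495615,32677695,26500669,5545916]) (T 44)))))))))) (B (P 22 (P 19 (P 20 (P 18 (P 20 (P
  70 (P 28 (P 71 (M [30449985,19996993,22094272,32580035,17916352]))))))))) (P 18 (P 35 (P 20 (P
  18 (P 86 (P 70 (P 22 (P 137 (T 2202))))))))))) (B (N 18 (P 35 (P 54 (P 39 (P 18 (B (P 23 (P 22
  (B (T 154) (M [22110398,20046269,28467643,1221181,7660087])))) (P 55 (P 18 (N 41 (T
  941)))))))))) (B (P 22 (P 20 (P 40 (P 18 (P 20 (P 23 (P 28 (P 71 (T 2222))))))))) (P 19 (P 38 (P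
  39 (P 18 (P 89 (P 23 (P 22 (B (M [17899968,22110656,1171901,20095549,30797109]) (T
  157))))))))))))) (P 19 (P 18 (P 36 (N 54 (P 55 (B (P 20 (P 18 (N 139 (B (P 18 (N 27 (T 717))) (P
  20 (B (T 207) (M [13721406,26337214,32693822,28565176,1334845]))))))) (P 23 (P 138 (N 35 (N 58
  (P 37 (N 94 (T 1759)))))))))))))) (B (B (B (P 19 (N 36 (P 55 (P 53 (P 20 (P 18 (N 105 (P 154 (P
  18 (N 44 (T 2765))))))))))) (B (N 18 (P 35 (B (B (P 18 (B (P 23 (P 22 (N 140 (T 925)))) (P 55 (P
  18 (N 41 (M [19980477,22110269,7496123,26435510,11739441])))))) (P 20 (N 21 (P 35 (P 18 (N 36 (T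
  1385))))))) (B (P 23 (N 35 (P 57 (P 18 (N 21 (T 1388)))))) (P 22 (N 18 (P 40 (P 18 (N 21 (M
  [11739313,13836593,26468524,24371499,20324895])))))))))) (N 69 (P 19 (B (B (P 18 (B (P 23 (P 22
  (B (T 222) (M [11559103,7397565,28434877,20079035,30747573])))) (P 22 (P 18 (N 40 (T 857))))))
  (P 25 (B (P 18 (P 22 (N 77 (T 862)))) (P 22 (P 18 (N 36 (M
  [7364799,24142014,11591869,20128049,30582702]))))))) (N 19 (P 22 (N 18 (P 22 (P 18 (N 21 (T
  1691)))))))))))) (N 18 (B (N 19 (P 36 (N 36 (N 86 (P 71 (N 18 (P 41 (P 18 (N 21 (T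
  2492)))))))))) (N 37 (P 20 (B (N 21 (P 25 (N 122 (P 22 (P 18 (N 36 (T 1726))))))) (N 19 (B (N 18
  (P 22 (P 18 (N 21 (M [13656254,26255419,9462072,30433846,20177195]))))) (N 20 (P 25 (P 172 (N 19
  (T 1230))))))))))))) (B (B (P 19 (N 36 (P 55 (B (P 20 (P 18 (N 105 (B (P 18 (N 27 (M
  [13721532,26304573,22241206,5496504,28663478]))) (P 20 (N 28 (T 621))))))) (P 69 (B (N 35 (B (P
  18 (N 21 (T 618))) (P 37 (N 28 (M [5332924,24190651,28401470,32595389,9542843]))))) (N 19 (N 18
  (P 53 (N 28 (T 1215))))))))))) (P 18 (N 18 (P 35 (B (P 22 (P 18 (N 104 (P 55 (P 18 (N 27 (T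
  1708))))))) (B (P 86 (N 35 (B (P 18 (N 21 (M [24174524,22110140,5365432,13852598,26419377]))) (P
  37 (N 25 (T 683)))))) (P 22 (N 18 (P 40 (P 18 (N 21 (T 1468)))))))))))) (B (P 20 (N 38 (B (N 36
  (B (B (N 23 (N 120 (P 37 (N 26 (T 1195))))) (N 19 (N 18 (P 53 (N 26 (M
  [32530239,9510587,11541948,22093369,24222907])))))) (N 21 (N 20 (N 23 (P 88 (N 20 (T
  1402)))))))) (N 20 (B (N 38 (N 25 (N 18 (P 61 (N 26 (T 1407)))))) (N 18 (N 20 (N 23 (B (N 20 (M
  [3137085,15736252,11556917,32495541,21891738])) (N 30 (T 431))))))))))) (B (N 21 (B (N 36 (B (B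
  (N 23 (B (P 18 (N 21 (T 603))) (P 37 (N 25 (M [5300156,22093499,9510457,24239800,11868701])))))
  (N 19 (N 18 (P 53 (N 25 (T 1114)))))) (B (N 18 (B (P 18 (N 21 (M
  [9461692,11591612,19963963,24371372,26468651]))) (P 35 (N 20 (T 581))))) (N 20 (B (P 23 (N 19 (T
  585))) (B (N 20 (M [3120828,5267388,22027708,11607609,19881656])) (N 22 (T 377)))))))) (N 19 (N
  20 (N 18 (N 20 (N 70 (B (N 20 (T 378)) (N 30 (M
  [32481087,15703740,22011453,30351037,19865275])))))))))) (N 37 (B (N 37 (N 19 (B (N 18 (P 22 (P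
  18 (N 21 (T 1180))))) (N 20 (B (B (N 19 (M [30400573,19947452,9478203,5201592,26239288])) (N 18
  (T 302))) (B (N 20 (T 297)) (N 22 (M [19898044,15670971,30351163,3104440,5168822])))))))) (N 18
  (N 20 (N 18 (N 20 (N 75 (N 87 (N 30 (T 1950)))))))))))))))) (B (B (B (B (B (B (P 37 (B (P 18 (P
  20 (P 18 (P 20 (P 75 (P 87 (P 30 (T 1950)))))))) (P 37 (P 19 (B (P 20 (B (B (P 22 (M
  [19964356,15802821,30482757,3203528,5333450])) (P 20 (T 297))) (B (P 18 (T 302)) (P 19 (M
  [30433347,19914948,9412677,5300680,26206024]))))) (P 18 (N 22 (N 18 (P 21 (T 1180)))))))))) (P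
  21 (B (P 19 (P 20 (P 18 (P 20 (P 70 (B (P 30 (M [32547137,15770052,22045251,30482883,19997125]))
  (P 20 (T 378)))))))) (P 36 (B (B (P 20 (B (B (P 22 (T 377)) (P 20 (M
  [3187140,5234884,22012613,11477447,19980744]))) (N 23 (P 19 (T 585))))) (P 18 (B (N 35 (P 20 (T
  581))) (N 18 (P 21 (M [9429188,11493572,19898437,23879636,25976661])))))) (B (P 19 (P 18 (N 53
  (P 25 (T 1114))))) (P 23 (B (N 37 (P 25 (M [5202116,21963205,9380295,24011208,11216483]))) (N 18
  (P 21 (T 603))))))))))) (N 20 (P 38 (B (P 20 (B (P 18 (P 20 (P 23 (B (P 30 (T 431)) (P 20 (M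
  [3170883,15721157,11528267,32532683,22164966])))))) (P 38 (P 25 (P 18 (N 61 (P 26 (T
  1407)))))))) (P 36 (B (P 21 (P 20 (P 23 (N 88 (P 20 (T 1402)))))) (B (P 19 (P 18 (N 53 (P 26 (M
  [32497985,9380293,11526853,21963207,24028101]))))) (P 23 (P 120 (N 37 (P 26 (T 1195))))))))))))
  (B (N 18 (P 18 (N 35 (B (B (N 22 (P 18 (N 40 (N 18 (P 21 (T 1468)))))) (N 86 (P 35 (B (N 37 (P
  25 (T 683))) (N 18 (P 21 (M [24076484,21946564,5136840,13426890,26025935]))))))) (N 22 (N 18 (P
  104 (N 55 (N 18 (P 27 (T 1708))))))))))) (N 19 (P 36 (N 55 (B (N 69 (B (P 19 (P 18 (N 53 (P 28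
  (T 1215))))) (P 35 (B (N 37 (P 28 (M [5169348,24060357,28238146,32432835,9348037]))) (N 18 (P 21
  (T 618))))))) (N 20 (N 18 (P 105 (B (N 20 (P 28 (T 621))) (N 18 (P 27 (M
  [13557956,26140739,21815498,5005768,27976138]))))))))))))) (B (P 18 (B (P 37 (N 20 (B (P 19 (B
  (P 20 (N 25 (N 172 (P 19 (T 1230))))) (P 18 (N 22 (N 18 (P 21 (M
  [13623234,26189893,9428808,30400074,19685205]))))))) (P 21 (N 25 (P 122 (N 22 (N 18 (P 36 (T
  1726)))))))))) (P 19 (N 36 (P 36 (P 86 (N 71 (P 18 (N 41 (N 18 (P 21 (T 2492)))))))))))) (B (B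
  (P 69 (N 19 (B (P 19 (N 22 (P 18 (N 22 (N 18 (P 21 (T 1691))))))) (B (N 25 (B (N 22 (N 18 (P 36
  (M [7331777,24108994,11493315,19734351,30251218])))) (N 18 (N 22 (P 77 (T 862)))))) (N 18 (B (N
  22 (N 18 (P 40 (T 857)))) (N 23 (N 22 (B (M [11526081,7299011,28204611,19783365,30086347]) (T
  222)))))))))) (P 18 (N 35 (B (B (N 22 (P 18 (N 40 (N 18 (P 21 (M
  [11345871,13442895,25976788,23879509,19537505])))))) (N 23 (P 35 (N 57 (N 18 (P 21 (T
  1388))))))) (B (N 20 (P 21 (N 35 (N 18 (P 36 (T 1385)))))) (N 18 (B (N 55 (N 18 (P 41 (M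
  [19881923,21946435,7200453,26009802,11345743])))) (N 23 (N 22 (P 140 (T 925))))))))))) (N 19 (P
  36 (N 55 (N 53 (N 20 (N 18 (P 105 (N 154 (N 18 (P 44 (T 2765)))))))))))))) (B (N 19 (N 18 (N 36
  (P 54 (N 55 (B (N 23 (N 138 (P 35 (P 58 (N 37 (P 94 (T 1759))))))) (N 20 (N 18 (P 139 (B (N 20
  (B (M [13558082,26108098,32334402,28074440,778819]) (T 207))) (N 18 (P 27 (T 717))))))))))))) (N
  18 (B (B (B (N 19 (N 38 (N 39 (N 18 (N 89 (N 23 (N 22 (B (T 157) (M
  [17768001,21946048,941635,19766851,30036811]))))))))) (N 22 (N 20 (N 40 (N 18 (N 20 (N 23 (N 28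
  (N 71 (T 2222)))))))))) (P 18 (N 35 (N 54 (N 39 (N 18 (B (N 55 (N 18 (P 41 (T 941)))) (N 23 (N
  22 (B (M [21946306,19816003,28171973,892483,7036489]) (T 154))))))))))) (B (B (N 18 (N 35 (N 20
  (N 18 (N 86 (N 70 (N 22 (N 137 (T 2202))))))))) (N 22 (N 19 (N 20 (N 18 (N 20 (N 70 (N 28 (N 71
  (M [30383935,19865407,21962305,32448189,17751744])))))))))) (B (N 55 (N 53 (N 20 (N 18 (B (B (N
  20 (B (T 44) (M [942274,7200961,32350529,25944643,4956356]))) (N 18 (B (M
  [7266242,28237891,5136578,762052,21716553]) (T 35)))) (B (N 21 (N 18 (T 575))) (N 22 (B (T 58)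
  (M [17768255,32448447,974786,19848896,5103809]))))))))) (N 23 (N 18 (N 20 (N 18 (N 20 (N 92 (N
  28 (N 71 (T 2207))))))))))))))) (B (B (P 18 (P 52 (B (B (B (P 18 (P 20 (P 18 (P 20 (B (P 28 (P
  30 (M [17899713,19997123,32579905,5333188,15802693]))) (P 21 (P 18 (T 632)))))))) (P 37 (P 19 (P
  121 (P 20 (B (P 28 (P 22 (T 638))) (B (P 18 (M [3170371,17883074,5316933,15818948,26287814])) (P
  19 (T 462))))))))) (B (P 53 (P 20 (P 18 (B (B (P 22 (P 30 (T 655))) (P 21 (P 18 (M
  [15785922,5316801,17916100,26304321,32661439])))) (N 28 (P 20 (P 190 (T 975)))))))) (P 21 (P 18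
  (P 19 (P 56 (N 69 (P 106 (P 18 (T 1932)))))))))) (P 22 (P 22 (P 19 (P 20 (P 18 (P 20 (P 70 (P 28
  (P 30 (T 2543))))))))))))) (B (P 18 (P 36 (B (N 20 (B (P 19 (B (P 20 (N 25 (B (P 18 (T 396)) (P
  19 (M [26239043,13655748,3219142,17898951,30400328]))))) (P 18 (N 22 (N 18 (P 21 (T 1134)))))))
  (P 21 (B (P 20 (N 19 (N 70 (P 19 (T 1128))))) (B (N 22 (N 18 (P 36 (M
  [30400450,7331523,9461444,17849924,13622858])))) (N 18 (N 22 (P 122 (T 907))))))))) (B (B (P 20
  (P 18 (B (N 25 (P 21 (P 18 (T 892)))) (N 28 (P 20 (B (M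
  [13688640,7429953,26386239,1236542,15916228]) (T 111))))))) (P 23 (B (N 35 (N 28 (P 37 (B (T
  103) (M [1105728,15785536,28401085,32595774,9526462]))))) (N 19 (N 18 (P 53 (N 54 (T
  1149)))))))) (B (P 18 (P 19 (B (N 25 (B (P 18 (M [26271682,13704645,15818561,17899206,3218887]))
  (P 19 (T 360)))) (N 20 (P 20 (P 86 (T 871))))))) (P 21 (B (B (N 19 (B (P 18 (T 310)) (P 19 (M
  [7380547,9461316,17850052,3218885,13704647])))) (N 20 (B (B (M
  [15785792,1105472,3186243,9477697,7413189]) (T 71)) (P 19 (T 308))))) (B (N 21 (N 18 (P 36 (T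
  840)))) (N 18 (B (B (T 20) (M [1089089,9494080,3169601,15817918,24173375])) (B (M
  [24108865,17817283,3186241,7364164,9477699]) (T 27)))))))))))) (P 35 (P 20 (B (N 19 (N 71 (B (N
  38 (B (N 22 (N 18 (P 36 (T 958)))) (N 18 (N 22 (B (M
  [30400449,17817409,24108739,7182546,11211979]) (T 88)))))) (N 18 (N 26 (N 23 (N 22 (B (T 94) (M
  [726219,27939659,30003789,17420621,10963795]))))))))) (N 53 (N 20 (B (N 38 (N 71 (N 18 (B (N 26
  (T 445)) (B (T 139) (M [1040193,28303040,24141121,3201855,11129165])))))) (N 18 (N 20 (N 23 (N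
  59 (N 71 (T 1421)))))))))))))) (N 18 (B (P 20 (P 19 (N 36 (B (N 104 (P 25 (B (N 35 (N 28 (P 37
  (N 28 (T 1247))))) (N 19 (N 18 (P 53 (N 28 (M
  [24141631,9526717,28400830,32611515,15817533])))))))) (N 22 (P 21 (N 40 (N 25 (N 18 (P 155 (N 28
  (T 1981)))))))))))) (B (P 20 (B (N 19 (N 38 (N 39 (N 18 (N 26 (N 23 (N 22 (N 205 (T
  2270))))))))) (B (N 36 (P 25 (N 106 (N 19 (N 18 (P 53 (N 26 (T 1983)))))))) (N 20 (B (N 38 (N 25
  (N 18 (B (N 26 (M [15753023,3137216,24206141,28367679,32528437])) (N 76 (T 349)))))) (N 18 (N 20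
  (N 23 (B (N 20 (T 351)) (N 71 (M [21995327,11525824,30350913,32497213,3135413]))))))))))) (P 69
  (N 21 (N 39 (N 19 (N 20 (N 18 (N 20 (N 70 (N 141 (N 71 (T 2799)))))))))))))))))

theorem check_tree : check tree L.reverse [] = true := by decide +kernel

/-- real version of the scalar product -/
noncomputable def dotR (u : V3) (x : Fin 3 → ℝ) : ℝ := u.1 * x 0 + u.2.1 * x 1 + u.2.2 * x 2

lemma dotR_neg (u : V3) (x : Fin 3 → ℝ) : dotR (negI u) x = - dotR u x := by
  simp only [dotR, negI]; push_cast; ring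

/-- Cramer's rule -/
lemma cramer (a b c w : V3) (x : Fin 3 → ℝ) :
    (detI a b c : ℝ) * dotR w x = (detI w b c : ℝ) * dotR a x + (detI a w c : ℝ) * dotR b x
      + (detI a b w : ℝ) * dotR c x := by
  simp only [detI, dotR]; push_cast; ring

lemma inCone_sound {a b c w : V3} (h : inCone a b c w = true) (x : Fin 3 → ℝ)
    (ha : 0 < dotR a x) (hb : 0 < dotR b x) (hc : 0 < dotR c x) : 0 ≤ dotR w x := by
  simp only [inCone, Bool.and_eq_true, decide_eq_true_eq] at h
  obtain ⟨⟨⟨h0, h1⟩, h2⟩, h3⟩ := h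
  have e := cramer a b c w x
  have h0' : (detI a b c : ℝ) ≠ 0 := by exact_mod_cast h0
  have h1' : (0 : ℝ) ≤ detI a b c * detI w b c := by exact_mod_cast h1
  have h2' : (0 : ℝ) ≤ detI a b c * detI a w c := by exact_mod_cast h2
  have h3' : (0 : ℝ) ≤ detI a b c * detI a b w := by exact_mod_cast h3
  have hD : 0 < (detI a b c : ℝ) * detI a b c := mul_self_pos.2 h0'
  have key : 0 ≤ ((detI a b c : ℝ) * detI a b c) * dotR w x := by
    have : ((detI a b c : ℝ) * detI a b c) * dotR w x
        = (detI a b c * detI w b c) * dotR a x + (detI a b c * detI a w c) * dotR b x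
          + (detI a b c * detI a b w) * dotR c x := by
      rw [mul_assoc, e]; ring
    rw [this]
    have t1 := mul_nonneg h1' ha.le
    have t2 := mul_nonneg h2' hb.le
    have t3 := mul_nonneg h3' hc.le
    linarith
  exact nonneg_of_mul_nonneg_right key hD

lemma getV_mem {C : List V3} {i : Nat} (h : i < C.length) : getV C i ∈ C := by
  unfold getV
  rw [List.getD_eq_getElem _ _ h]
  exact List.getElem_mem h

/-- the real point associated with an integer point -/
noncomputable def toR (y : V3) : Fin 3 → ℝ := ![(y.1 : ℝ), (y.2.1 : ℝ), (y.2.2 : ℝ)]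

lemma dotR_toR (u y : V3) : dotR u (toR y) = (dotI u y : ℝ) := by
  simp only [dotR, toR, dotI, Matrix.cons_val_zero, Matrix.cons_val_one, Matrix.cons_val]
  push_cast; ring

lemma wallAux_sound : ∀ (C : List V3) (i : Nat) (y : V3), wallAux C i y = true →
    i < C.length ∧ ∀ (j : Nat) (hj : j < C.length),
      (j = i → dotI C[j] y < 0) ∧ (j ≠ i → 0 < dotI C[j] y) := by
  intro C
  induction C with
  | nil => intro i y h; simp [wallAux] at h
  | cons u C ih =>
    intro i y h
    cases i with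
    | zero =>
      simp only [wallAux, Bool.and_eq_true, decide_eq_true_eq, List.all_eq_true] at h
      refine ⟨by simp, ?_⟩
      intro j hj
      cases j with
      | zero => exact ⟨fun _ => h.1, fun hne => absurd rfl hne⟩
      | succ j =>
        refine ⟨fun he => absurd he (by omega), fun _ => ?_⟩
        have hj' : j < C.length := by simpa using hj
        exact h.2 C[j] (List.getElem_mem hj')
    | succ i =>
      simp only [wallAux, Bool.and_eq_true, decide_eq_true_eq] at h
      obtain ⟨h1, h2⟩ := ih i y h.2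
      refine ⟨by simpa using h1, ?_⟩
      intro j hj
      cases j with
      | zero => exact ⟨fun he => absurd he (by omega), fun _ => h.1⟩
      | succ j =>
        have hj' : j < C.length := by simpa using hj
        obtain ⟨g1, g2⟩ := h2 j hj'
        exact ⟨fun he => g1 (by omega), fun he => g2 (by omega)⟩

/-- the set of walls of the cell `{x | 0 < u·x for all u in C}` -/
def walls (C : List V3) : Set Nat :=
  {i | i < C.length ∧ ∃ y : Fin 3 → ℝ, ∀ (j : Nat) (hj : j < C.length),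
      (j = i → dotR C[j] y < 0) ∧ (j ≠ i → 0 < dotR C[j] y)}

lemma walls_finite (C : List V3) : (walls C).Finite :=
  (Set.finite_lt_nat C.length).subset fun _ hi => hi.1

lemma leafT_sound {k : Nat} {C : List V3} (h : leafT k C = true) : (walls C).ncard ≠ 4 := by
  simp only [leafT, Bool.and_eq_true, decide_eq_true_eq, List.all_eq_true] at h
  obtain ⟨⟨⟨ha, hb⟩, hc⟩, hall⟩ := h
  have hsub : walls C ⊆ ({k / 256, k / 16 % 16, k % 16} : Finset Nat) := by
    rintro i ⟨hi, y, hy⟩
    by_contra hcon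
    simp only [Finset.coe_insert, Finset.coe_singleton, Set.mem_insert_iff,
      Set.mem_singleton_iff, not_or] at hcon
    have e : ∀ m (hm : m < C.length), getV C m = C[m] := fun m hm => by
      unfold getV; rw [List.getD_eq_getElem _ _ hm]
    have h1 := inCone_sound (hall C[i] (List.getElem_mem hi)) y
      (by rw [e _ ha]; exact (hy _ ha).2 (Ne.symm hcon.1))
      (by rw [e _ hb]; exact (hy _ hb).2 (Ne.symm hcon.2.1))
      (by rw [e _ hc]; exact (hy _ hc).2 (Ne.symm hcon.2.2))
    exact absurd ((hy i hi).1 rfl) (not_lt.2 h1)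
  have h1 : (walls C).ncard ≤ ({k / 256, k / 16 % 16, k % 16} : Finset Nat).card := by
    rw [← Set.ncard_coe_finset]
    exact Set.ncard_le_ncard hsub (Finset.finite_toSet _)
  have h2 : ({k / 256, k / 16 % 16, k % 16} : Finset Nat).card ≤ 3 := Finset.card_le_three
  omega

lemma leafM_sound {l : List Nat} {C : List V3} (h : leafM l C = true) : (walls C).ncard ≠ 4 := by
  simp only [leafM, Bool.and_eq_true, decide_eq_true_eq, List.all_eq_true] at h
  obtain ⟨⟨h5, hnd⟩, hall⟩ := h
  have hsub : ((l.map idx).toFinset : Set Nat) ⊆ walls C := by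
    intro i hi
    simp only [List.coe_toFinset, List.mem_map, Set.mem_ofPred_eq] at hi
    obtain ⟨k, hk, rfl⟩ := hi
    obtain ⟨g1, g2⟩ := wallAux_sound C _ _ (hall k hk)
    refine ⟨g1, toR (dec k), ?_⟩
    intro j hj
    rw [dotR_toR]
    refine ⟨fun he => ?_, fun he => ?_⟩
    · exact_mod_cast (g2 j hj).1 he
    · exact_mod_cast (g2 j hj).2 he
  have h1 := Set.ncard_le_ncard hsub (walls_finite C)
  rw [Set.ncard_coe_finset, List.toFinset_card_of_nodup hnd, List.length_map, h5] at h1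
  omega

def R (u v : V3) : Prop := u = v ∨ u = negI v

lemma check_sound : ∀ (t : Tree) (rest C base : List V3), List.Forall₂ R C base →
    check t rest C = true → ∀ x : Fin 3 → ℝ, (∀ u ∈ C, 0 < dotR u x) →
    (∀ w ∈ rest, dotR w x ≠ 0) →
    ∃ C' : List V3, List.Forall₂ R C' (rest.reverse ++ base) ∧ (∀ u ∈ C', 0 < dotR u x) ∧
      (walls C').ncard ≠ 4 := by
  intro t
  induction t with
  | B p n ihp ihn =>
    intro rest C base hR hch x hC hrest
    cases rest with
    | nil => simp [check] at hch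
    | cons w rest =>
      simp only [check, Bool.and_eq_true] at hch
      have hw := hrest w (by simp)
      rw [List.reverse_cons, List.append_assoc, List.singleton_append]
      rcases lt_or_gt_of_ne hw with h | h
      · refine ihn rest (negI w :: C) (w :: base) (List.Forall₂.cons (Or.inr rfl) hR) hch.2 x ?_
          (fun u hu => hrest u (by simp [hu]))
        intro u hu
        rcases List.mem_cons.1 hu with rfl | hu
        · rw [dotR_neg]; linarith
        · exact hC u hu
      · refine ihp rest (w :: C) (w :: base) (List.Forall₂.cons (Or.inl rfl) hR) hch.1 x ?_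
          (fun u hu => hrest u (by simp [hu]))
        intro u hu
        rcases List.mem_cons.1 hu with rfl | hu
        · exact h
        · exact hC u hu
  | P k t ih =>
    intro rest C base hR hch x hC hrest
    cases rest with
    | nil => simp [check] at hch
    | cons w rest =>
      simp only [check, Bool.and_eq_true, decide_eq_true_eq] at hch
      obtain ⟨⟨⟨⟨ha, hb⟩, hc⟩, hcone⟩, hch⟩ := hch
      have hw := hrest w (by simp)
      have h := inCone_sound hcone x (hC _ (getV_mem ha)) (hC _ (getV_mem hb))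
        (hC _ (getV_mem hc))
      rw [List.reverse_cons, List.append_assoc, List.singleton_append]
      refine ih rest (w :: C) (w :: base) (List.Forall₂.cons (Or.inl rfl) hR) hch x ?_
          (fun u hu => hrest u (by simp [hu]))
      intro u hu
      rcases List.mem_cons.1 hu with rfl | hu
      · exact lt_of_le_of_ne h (Ne.symm hw)
      · exact hC u hu
  | N k t ih =>
    intro rest C base hR hch x hC hrest
    cases rest with
    | nil => simp [check] at hch
    | cons w rest =>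
      simp only [check, Bool.and_eq_true, decide_eq_true_eq] at hch
      obtain ⟨⟨⟨⟨ha, hb⟩, hc⟩, hcone⟩, hch⟩ := hch
      have hw := hrest w (by simp)
      have h := inCone_sound hcone x (hC _ (getV_mem ha)) (hC _ (getV_mem hb))
        (hC _ (getV_mem hc))
      rw [List.reverse_cons, List.append_assoc, List.singleton_append]
      refine ih rest (negI w :: C) (w :: base) (List.Forall₂.cons (Or.inr rfl) hR) hch x ?_
          (fun u hu => hrest u (by simp [hu]))
      intro u hu
      rcases List.mem_cons.1 hu with rfl | hu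
      · rw [dotR_neg] at h ⊢
        exact lt_of_le_of_ne h (fun hh => hw (by linarith))
      · exact hC u hu
  | T k =>
    intro rest C base hR hch x hC hrest
    cases rest with
    | nil =>
      simp only [check] at hch
      exact ⟨C, by simpa using hR, hC, leafT_sound hch⟩
    | cons w rest => simp [check] at hch
  | M l =>
    intro rest C base hR hch x hC hrest
    cases rest with
    | nil =>
      simp only [check] at hch
      exact ⟨C, by simpa using hR, hC, leafM_sound hch⟩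
    | cons w rest => simp [check] at hch

lemma L_length : L.length = 16 := rfl

/-- the sixteen normals -/
noncomputable def v (i : Fin 16) : Fin 3 → ℝ := toR (L[i.1]'(by rw [L_length]; exact i.2))

lemma v_dot (i : Fin 16) (x : Fin 3 → ℝ) :
    dotProduct (v i) x = dotR (L[i.1]'(by rw [L_length]; exact i.2)) x := by
  simp only [v, toR, dotR, dotProduct, Fin.sum_univ_three, Matrix.cons_val_zero,
    Matrix.cons_val_one, Matrix.cons_val]

lemma det_all : ∀ i j k : Fin 16, i ≠ j → i ≠ k → j ≠ k →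
    detI (getV L i.1) (getV L j.1) (getV L k.1) ≠ 0 := by decide +kernel

lemma indep (i j k : Fin 16) (h1 : i ≠ j) (h2 : i ≠ k) (h3 : j ≠ k) :
    LinearIndependent ℝ ![v i, v j, v k] := by
  have hd := det_all i j k h1 h2 h3
  have e : ∀ m : Fin 16, getV L m.1 = L[m.1]'(by rw [L_length]; exact m.2) := fun m => by
    unfold getV; rw [List.getD_eq_getElem]
  rw [e, e, e] at hd
  have hli : LinearIndependent ℝ (Matrix.row (Matrix.of ![v i, v j, v k])) := by
    rw [Matrix.linearIndependent_rows_iff_isUnit, Matrix.isUnit_iff_isUnit_det, isUnit_iff_ne_zero]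
    intro h0
    apply hd
    rw [Matrix.det_fin_three] at h0
    simp only [v, toR, Matrix.of_apply, Matrix.cons_val_zero, Matrix.cons_val_one,
      Matrix.cons_val] at h0
    have : ((detI (L[i.1]'(by rw [L_length]; exact i.2)) (L[j.1]'(by rw [L_length]; exact j.2))
      (L[k.1]'(by rw [L_length]; exact k.2)) : ℤ) : ℝ) = 0 := by
      rw [← h0]; simp only [detI]; push_cast; ring
    exact_mod_cast this
  exact hli

lemma neg_iff {a b : ℝ} (ha : 0 < a) : a * b < 0 ↔ b < 0 := by
  rw [mul_neg_iff]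
  constructor
  · rintro (⟨_, h⟩ | ⟨h, _⟩)
    · exact h
    · linarith
  · intro h; exact Or.inl ⟨ha, h⟩

theorem main (x : Fin 3 → ℝ) (hx : ∀ i : Fin 16, dotProduct (v i) x ≠ 0) :
    {i : Fin 16 | ∃ y : Fin 3 → ℝ,
              dotProduct (v i) x * dotProduct (v i) y < 0 ∧
              ∀ j : Fin 16, j ≠ i → 0 < dotProduct (v j) x * dotProduct (v j) y}.ncard ≠ 4 := by
  obtain ⟨C, hC, hpos, hw⟩ := check_sound tree L.reverse [] [] List.Forall₂.nil check_tree x
    (by simp) (by
      intro w hw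
      rw [List.mem_reverse] at hw
      obtain ⟨i, hi, rfl⟩ := List.getElem_of_mem hw
      have hi' : i < 16 := by rw [← L_length]; exact hi
      have := hx ⟨i, hi'⟩
      rwa [v_dot] at this)
  rw [List.reverse_reverse, List.append_nil] at hC
  have hlen : C.length = 16 := by rw [hC.length_eq, L_length]
  -- relation between the signs
  have key : ∀ (j : Nat) (hj : j < 16) (y : Fin 3 → ℝ),
      (0 < dotProduct (v ⟨j, hj⟩) x * dotProduct (v ⟨j, hj⟩) y ↔
        0 < dotR (C[j]'(by omega)) y) ∧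
      (dotProduct (v ⟨j, hj⟩) x * dotProduct (v ⟨j, hj⟩) y < 0 ↔
        dotR (C[j]'(by omega)) y < 0) := by
    intro j hj y
    rw [v_dot, v_dot]
    have hp := hpos (C[j]'(by omega)) (List.getElem_mem _)
    have hr : R (C[j]'(by omega)) (L[j]'(by rw [L_length]; exact hj)) := by
      have := (List.forall₂_iff_get.1 hC).2 j (by omega) (by rw [L_length]; exact hj)
      simpa using this
    rcases hr with h | h
    · rw [← h]
      exact ⟨by rw [mul_pos_iff_of_pos_left hp], neg_iff hp⟩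
    · have h2 : ∀ z, dotR (L[j]'(by rw [L_length]; exact hj)) z = - dotR (C[j]'(by omega)) z := by
        intro z; rw [h, dotR_neg, neg_neg]
      rw [h2, h2]
      have e : -dotR (C[j]'(by omega)) x * -dotR (C[j]'(by omega)) y
          = dotR (C[j]'(by omega)) x * dotR (C[j]'(by omega)) y := by ring
      rw [e]
      exact ⟨by rw [mul_pos_iff_of_pos_left hp], neg_iff hp⟩
  have himg : (fun i : Fin 16 => i.1) '' {i : Fin 16 | ∃ y : Fin 3 → ℝ,
              dotProduct (v i) x * dotProduct (v i) y < 0 ∧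
              ∀ j : Fin 16, j ≠ i → 0 < dotProduct (v j) x * dotProduct (v j) y} = walls C := by
    ext i
    constructor
    · rintro ⟨⟨i, hi⟩, ⟨y, h1, h2⟩, rfl⟩
      refine ⟨by show i < C.length; omega, y, ?_⟩
      intro j hj
      have hj' : j < 16 := by omega
      refine ⟨fun he => ?_, fun he => ?_⟩
      · simp only at he
        subst he
        exact ((key j hj' y).2).1 h1
      · exact ((key j hj' y).1).1 (h2 ⟨j, hj'⟩ (by simpa using he))
    · rintro ⟨hi, y, hy⟩
      have hi' : i < 16 := by omega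
      refine ⟨⟨i, hi'⟩, ⟨y, ?_, ?_⟩, rfl⟩
      · exact ((key i hi' y).2).2 ((hy i hi).1 rfl)
      · rintro ⟨j, hj⟩ hji
        exact ((key j hj y).1).2 ((hy j (by omega)).2 (by simpa using hji))
  rw [← Set.ncard_image_of_injective _ Fin.val_injective, himg]
  exact hw

end Pool.Agent.H216R2.QuadFree
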